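import Pool.Agent.Lib.MP_6bd626_an.Proof

open Pool.Agent.Lib.MP_6bd626_an

/-- There are a countable group `G` and an action of `G` by linear isometries on the Hilbert space
`ℓ²(ℕ)` that fails the `G`-equivariant dual lifting property. -/
theorem Pool.Agent.Results.MP_6bd626_an.HilbertFail.result :
    FailsForCountableIsometricAction (lp (fun _ : ℕ => ℝ) 2) :=
  ⟨FreeGroup ℕ, inferInstance, act, inferInstance,
    fun _ x => norm_permFun _ x, not_lifting⟩
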